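import Pool.Agent.Lib_MP_38e082_ap.Fin

/-!
# MP_38e082_lc, Q1: the relation fails when the points of cofinality `(cf λ)⁺` are approachable

Let `λ` be a singular cardinal, `μ = cf λ`, with `2^λ = λ⁺` and `2^c ≤ μ` for `c < μ` (all this
holds under GCH; the second condition is empty for `μ = ω`). Suppose that almost all points of `λ⁺`
of cofinality `μ⁺` are approachable. (This follows from the weak square principle at `λ`, so it
holds for every singular `λ` if `V = L`.) Or suppose only that there is a normal colouring of the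
pairs of `λ⁺` with `μ` colours which is bounded on a subset of size `μ⁺` of every set of size `μ⁺`.
Then `(λ⁺, λ⁺, λ) → (cf λ)⁺` fails: there is a set mapping `f` on `λ⁺` with `f(x) ⊆ x` such that
`|⋂ f[X]| < λ` for all `X` of size `λ⁺`, and no free set has size `(cf λ)⁺`.
-/

namespace Pool.Agent.Lib_MP_38e082_old.Approachability

open Cardinal Set Order Pool.Agent.Lib_MP_38e082_ap

theorem result (lam : Cardinal.{0}) (h0 : ℵ₀ ≤ lam) (hsing : lam.ord.cof < lam)
    (h2 : 2 ^ lam = succ lam) (hmu : ∀ c < lam.ord.cof, (2 : Cardinal.{0}) ^ c ≤ lam.ord.cof)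
    (h : Approachable lam.ord.cof (succ lam).ord.ToType ∨
      BoundedColouring lam lam.ord.cof (succ lam).ord.ToType) :
    (∃ f : (succ lam).ord.ToType → Set (succ lam).ord.ToType, (∀ x, f x ⊆ Iio x) ∧
      (∀ X : Set (succ lam).ord.ToType, #X = succ lam →
        #(⋂ x ∈ X, f x : Set (succ lam).ord.ToType) < lam) ∧
      ∀ H : Set (succ lam).ord.ToType, #H = succ lam.ord.cof →
        ∃ x ∈ H, ∃ y ∈ H, x ≠ y ∧ y ∈ f x) ∧
    ¬ Arrow (succ lam) (succ lam) lam (succ lam.ord.cof) :=
  ⟨final h0 hsing h2 hmu h, not_arrow h0 hsing h2 hmu h⟩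

end Pool.Agent.Lib_MP_38e082_old.Approachability
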