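import Mathlib
import Pool.Agent.Lib_MP_38e082_gen.Exist

/-!
# MP_38e082_lc, Q1: models of ZFC in which `(λ⁺, λ⁺, λ) → (cf λ)⁺` fails, for every cofinality

For every regular cardinal `μ` there are a structure `(M, E)` for the language of set theory which
is an `ω`-model of ZFC, and `m, l, k, f ∈ M` such that, in the sense of `(M, E)`: `m` is an infinite
regular cardinal (`m = ℵ_n` if `μ = ℵ_n`), `l` is a singular strong limit cardinal of cofinality
`m`, `k = l⁺`, there are at most `k` subsets of `l` (so `2^l = l⁺`), and `f` is a set mapping on `k`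
with `f(x) ⊆ x` such that `⋂ f[X]` has size less than `l` for every `X ⊆ k` of size `k`, while every
free set has size at most `m`.
-/

namespace Pool.Agent.Lib_MP_38e082_old.ConsistentFailure

open Pool.Agent.FreeSets Pool.Agent.FreeSetsG Pool.Agent.Forcing Pool.Agent.Inner Cardinal

theorem result (μ : Cardinal.{0}) (hμ : μ.IsRegular) :
    ∃ (M : Type 1) (E : M → M → Prop), ModelsZFC E ∧ OmegaModel E ∧
      ∃ m l k f : M, SingularCof E m l ∧ (∀ n : ℕ, μ = ℵ_ n → IsAleph E n m) ∧
        StrongLimit E l ∧ IsSuccCard E l k ∧ (∃ s, OntoPow E s k l) ∧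
        Counterexample E m l k f :=
  exists_model μ hμ

end Pool.Agent.Lib_MP_38e082_old.ConsistentFailure
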