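import Pool.Agent.Lib_MP_38e082_gen.Exist
import Pool.Agent.Lib_MP_38e082_mm.Fin
import Pool.Agent.Lib_MP_38e082_ap.Defs

/-!
# MP_38e082_lc, Q1: the relation `(λ⁺, λ⁺, λ) → (cf λ)⁺` is neither provable nor refutable

(a) ZFC does not prove the relation, for any cofinality. For every regular cardinal `μ` there are a
structure `(M, E)` for the language of set theory which is an `ω`-model of ZFC, and `m, l, k, f ∈ M`
such that, in the sense of `(M, E)`: `m` is an infinite regular cardinal (`m = ℵ_n` if `μ = ℵ_n`), `l`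
is a singular strong limit cardinal of cofinality `m`, `k = l⁺`, `2^l = l⁺`, and `f` is a set mapping
on `k` with `f(x) ⊆ x` such that `⋂ f[X]` has size less than `l` for every `X ⊆ k` of size `k`,
while every free set has size at most `m`.

(b) ZFC does not refute the relation (if ZFC with Martin's Maximum is consistent): Martin's Maximum
implies `(λ⁺, λ⁺, λ) → (cf λ)⁺` for every singular cardinal `λ` of cofinality `ω`.
-/

namespace Pool.Agent.Lib_MP_38e082_old.Independence

open Cardinal Order Pool.Agent.FreeSets Pool.Agent.FreeSetsG Pool.Agent.Forcing Pool.Agent.Inner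
  Pool.Agent.Lib_MP_38e082_mm Pool.Agent.Lib_MP_38e082_ap

theorem result :
    (∀ μ : Cardinal.{0}, μ.IsRegular →
      ∃ (M : Type 1) (E : M → M → Prop), ModelsZFC E ∧ OmegaModel E ∧
        ∃ m l k f : M, SingularCof E m l ∧ (∀ n : ℕ, μ = ℵ_ n → IsAleph E n m) ∧
          StrongLimit E l ∧ IsSuccCard E l k ∧ (∃ s, OntoPow E s k l) ∧
          Counterexample E m l k f) ∧
    (MM → ∀ lam : Cardinal.{0}, ℵ₀ < lam → lam.ord.cof = ℵ₀ →
      Arrow (succ lam) (succ lam) lam (succ lam.ord.cof)) := by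
  refine ⟨fun μ hμ => exists_model μ hμ, fun hMM lam h0 hcof S f hS hff hfc hI => ?_⟩
  obtain ⟨P, _, _, hP, D, hD, hG⟩ := Pool.Agent.Lib_MP_38e082_mm.final h0 hcof hS hff hfc hI
  obtain ⟨G, hGf, hGD⟩ := hMM P hP D hD
  obtain ⟨H, hH, hfree⟩ := hG G hGf hGD
  refine ⟨H, ?_, hfree⟩
  rw [hH, hcof, succ_aleph0]

end Pool.Agent.Lib_MP_38e082_old.Independence
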